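import Pool.Agent.Helper92.PW.St

/-! # PW MODULE DIS -/

set_option autoImplicit false

open Finset

noncomputable section

namespace Pool.Agent.Helper92.PW

theorem Qf_DIS (Q : Fin 6 → ℤ) (p : Pt) : Qf Q p = Q 0 * p.1 ^ 2 + Q 1 * (p.1 * p.2.1) + Q 2 * p.2.1 ^ 2 +
    Q 3 * (p.1 * p.2.2) + Q 4 * (p.2.1 * p.2.2) + Q 5 * p.2.2 ^ 2 := by
  simp [Qf, ver, Fin.sum_univ_succ]
  ring

theorem Bf_DIS (Q : Fin 6 → ℤ) (p q : Pt) : Bf Q p q = 2 * Q 0 * (p.1 * q.1) + Q 1 * (p.1 * q.2.1 + p.2.1 * q.1) +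
    2 * Q 2 * (p.2.1 * q.2.1) + Q 3 * (p.1 * q.2.2 + p.2.2 * q.1) + Q 4 * (p.2.1 * q.2.2 + p.2.2 * q.2.1) +
    2 * Q 5 * (p.2.2 * q.2.2) := by
  simp only [Bf, Qf_DIS, Prod.fst_add, Prod.snd_add]
  ring

theorem RR_DIS (Q : Fin 6 → ℤ) (p0 f1 f2 : Pt) : RR Q p0 f1 f2 =
    Qf Q f1 * Bf Q p0 f2 ^ 2 - Bf Q f1 f2 * (Bf Q p0 f1 * Bf Q p0 f2) + Qf Q f2 * Bf Q p0 f1 ^ 2 := by
  have h : ∀ u v : ℤ, Qf Q (lf f1 f2 (u, v)) = Qf Q f1 * u ^ 2 + Bf Q f1 f2 * (u * v) + Qf Q f2 * v ^ 2 := by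
    intro u v
    simp only [Bf_DIS, Qf_DIS, lf, Prod.fst_add, Prod.snd_add, Prod.smul_fst, Prod.smul_snd, smul_eq_mul]
    ring
  unfold RR qq
  rw [h]
  ring

/-- the determinant of the symmetric matrix of `Q` -/
def dS (Q : Fin 6 → ℤ) : ℤ :=
  2 * Q 0 * (4 * Q 2 * Q 5 - Q 4 ^ 2) - Q 1 * (2 * Q 1 * Q 5 - Q 4 * Q 3) + Q 3 * (Q 1 * Q 4 - 2 * Q 2 * Q 3)

theorem gram_DIS (Q : Fin 6 → ℤ) (p0 f1 f2 : Pt) :
    dS Q * det3 p0 f1 f2 ^ 2 = 2 * Qf Q p0 * (4 * Qf Q f1 * Qf Q f2 - Bf Q f1 f2 ^ 2) - 2 * RR Q p0 f1 f2 := by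
  rw [RR_DIS]
  have hS : dS Q = (!![2 * Q 0, Q 1, Q 3; Q 1, 2 * Q 2, Q 4; Q 3, Q 4, 2 * Q 5] : Matrix (Fin 3) (Fin 3) ℤ).det := by
    rw [Matrix.det_fin_three]
    simp only [dS, Matrix.of_apply, Matrix.cons_val', Matrix.cons_val_zero, Matrix.cons_val_one, Matrix.cons_val]
    ring
  have hP : det3 p0 f1 f2 = (!![p0.1, f1.1, f2.1; p0.2.1, f1.2.1, f2.2.1; p0.2.2, f1.2.2, f2.2.2] :
      Matrix (Fin 3) (Fin 3) ℤ).det := by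
    rw [Matrix.det_fin_three]
    simp only [det3, dot, crs, Matrix.of_apply, Matrix.cons_val', Matrix.cons_val_zero, Matrix.cons_val_one,
      Matrix.cons_val]
    ring
  set S : Matrix (Fin 3) (Fin 3) ℤ := !![2 * Q 0, Q 1, Q 3; Q 1, 2 * Q 2, Q 4; Q 3, Q 4, 2 * Q 5] with hSd
  set P : Matrix (Fin 3) (Fin 3) ℤ := !![p0.1, f1.1, f2.1; p0.2.1, f1.2.1, f2.2.1; p0.2.2, f1.2.2, f2.2.2] with hPd
  have hG : P.transpose * S * P = !![2 * Qf Q p0, Bf Q p0 f1, Bf Q p0 f2; Bf Q p0 f1, 2 * Qf Q f1, Bf Q f1 f2;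
      Bf Q p0 f2, Bf Q f1 f2, 2 * Qf Q f2] := by
    ext i j
    fin_cases i <;> fin_cases j <;>
      simp [hSd, hPd, Matrix.mul_apply, Fin.sum_univ_succ, Bf_DIS, Qf_DIS] <;> ring
  have h1 : (P.transpose * S * P).det = dS Q * det3 p0 f1 f2 ^ 2 := by
    rw [Matrix.det_mul, Matrix.det_mul, Matrix.det_transpose, ← hS, ← hP]
    ring
  rw [← h1, hG, Matrix.det_fin_three]
  simp only [Matrix.of_apply, Matrix.cons_val', Matrix.cons_val_zero, Matrix.cons_val_one, Matrix.cons_val]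
  ring

theorem hDIS : StDIS := by
  intro Q p0 f1 f2 M h1 h0 hM
  have hg := gram_DIS Q p0 f1 f2
  rw [h1, h0] at hg
  have hR : (RR Q p0 f1 f2 : ℝ) = -(dS Q : ℝ) / 2 := by
    have : 2 * RR Q p0 f1 f2 = - dS Q := by linarith
    have h2 : (2 * RR Q p0 f1 f2 : ℝ) = -(dS Q : ℝ) := by exact_mod_cast this
    linarith
  have hM0 : 0 ≤ M := (abs_nonneg _).trans (hM 0)
  have tri : ∀ a b c : Fin 6, |(Q a : ℝ) * Q b * Q c| ≤ M ^ 3 := by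
    intro a b c
    rw [abs_mul, abs_mul]
    calc |(Q a : ℝ)| * |(Q b : ℝ)| * |(Q c : ℝ)| ≤ M * M * M :=
          mul_le_mul (mul_le_mul (hM a) (hM b) (abs_nonneg _) hM0) (hM c) (abs_nonneg _) (by positivity)
      _ = M ^ 3 := by ring
  have hdS : (dS Q : ℝ) = 8 * ((Q 0 : ℝ) * Q 2 * Q 5) - 2 * ((Q 0 : ℝ) * Q 4 * Q 4) - 2 * ((Q 1 : ℝ) * Q 1 * Q 5)
      + (Q 1 : ℝ) * Q 4 * Q 3 + (Q 3 : ℝ) * Q 1 * Q 4 - 2 * ((Q 3 : ℝ) * Q 2 * Q 3) := by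
    unfold dS
    push_cast
    ring
  rw [hR, abs_div, abs_neg, abs_two, div_le_iff₀ (by norm_num : (0:ℝ) < 2), hdS]
  have a1 := abs_le.1 (tri 0 2 5)
  have a2 := abs_le.1 (tri 0 4 4)
  have a3 := abs_le.1 (tri 1 1 5)
  have a4 := abs_le.1 (tri 1 4 3)
  have a5 := abs_le.1 (tri 3 1 4)
  have a6 := abs_le.1 (tri 3 2 3)
  rw [abs_le]
  constructor <;> linarith [a1.1, a1.2, a2.1, a2.2, a3.1, a3.2, a4.1, a4.2, a5.1, a5.2, a6.1, a6.2]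

end Pool.Agent.Helper92.PW
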