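import Pool.Agent.Helper92.PW.St

/-! # PW MODULES RC, BAS, SGN, DIS -/

set_option autoImplicit false

open Finset

noncomputable section

namespace Pool.Agent.Helper92.PW

theorem hRC : StRC := by
  intro k b hk hb r hr
  have hb' : (b : ℚ) ≠ 0 := by exact_mod_cast hb
  have h1 : (r / b) ^ 3 = (k : ℚ) := by
    rw [div_pow, hr]
    push_cast
    field_simp
  -- r / b is an integer
  obtain ⟨m, hm⟩ : ∃ m : ℤ, (m : ℚ) = r / b := by
    have hint : IsIntegral ℤ (r / b) := by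
      refine ⟨Polynomial.X ^ 3 - Polynomial.C k, Polynomial.monic_X_pow_sub_C k (by norm_num), ?_⟩
      simp only [Polynomial.eval₂_sub, Polynomial.eval₂_X_pow, Polynomial.eval₂_C]
      rw [h1]
      simp
    exact IsIntegrallyClosed.isIntegral_iff.1 hint
  apply hk m
  have : ((m ^ 3 : ℤ) : ℚ) = (k : ℚ) := by
    push_cast
    rw [hm, h1]
  exact_mod_cast this

theorem hBAS : StBAS := by
  rintro ⟨x, y, z⟩ h
  by_cases hg : (Int.gcd x y : ℤ) = 0
  · have hxy : x = 0 ∧ y = 0 := by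
      have := Int.gcd_eq_zero_iff.1 (by exact_mod_cast hg : Int.gcd x y = 0)
      exact this
    obtain ⟨hx, hy⟩ := hxy
    have hz : IsUnit z := h z (by simp [hx]) (by simp [hy]) (dvd_refl z)
    refine ⟨(1, 0, 0), (0, z, 0), ?_⟩
    have hz2 : z * z = 1 := Int.isUnit_mul_self hz
    simp only [det3, dot, crs]
    linear_combination hz2
  · set g : ℤ := (Int.gcd x y : ℤ) with hgdef
    obtain ⟨x', hx'⟩ : g ∣ x := Int.gcd_dvd_left ..
    obtain ⟨y', hy'⟩ : g ∣ y := Int.gcd_dvd_right ..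
    have hbez : g = x * Int.gcdA x y + y * Int.gcdB x y := Int.gcd_eq_gcd_ab x y
    set a := Int.gcdA x y
    set b := Int.gcdB x y
    have h1 : a * x' + b * y' = 1 := by
      have : g * (a * x' + b * y') = g * 1 := by
        calc g * (a * x' + b * y') = (g * x') * a + (g * y') * b := by ring
          _ = x * a + y * b := by rw [← hx', ← hy']
          _ = g * 1 := by rw [mul_one]; exact hbez.symm
      exact mul_left_cancel₀ hg this
    have hcop : Int.gcd g z = 1 := by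
      have hu : IsUnit ((Int.gcd g z : ℕ) : ℤ) := by
        apply h
        · exact (Int.gcd_dvd_left ..).trans ⟨x', hx'⟩
        · exact (Int.gcd_dvd_left ..).trans ⟨y', hy'⟩
        · exact Int.gcd_dvd_right ..
      have := Int.isUnit_iff.1 hu
      omega
    have hbez2 : (1 : ℤ) = g * Int.gcdA g z + z * Int.gcdB g z := by
      have := Int.gcd_eq_gcd_ab g z
      rw [hcop] at this
      exact_mod_cast this
    set c := Int.gcdA g z
    set d := Int.gcdB g z
    refine ⟨(-b, a, 0), (-d * x', -d * y', c), ?_⟩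
    simp only [det3, dot, crs]
    rw [hx', hy']
    have e1 : g * c + z * d = 1 := hbez2.symm
    linear_combination (g * c + z * d) * h1 + e1

theorem hSGN : StSGN := by
  intro k B β lam hP p hp
  have hβ := hP.b0
  have hβ1 := hP.b1
  have hκ := hP.k1
  have hB := hP.B1
  have hl := hP.l0
  have hB0 : 0 < B := by linarith
  have hz := hp.z_gt
  have hzpos : 0 < |(p.2.2 : ℝ)| := by linarith
  have hz0 : (p.2.2 : ℝ) ≠ 0 := abs_pos.1 hzpos
  have hxi : |xi p| = |(p.1 : ℝ)| / |(p.2.2 : ℝ)| := abs_div _ _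
  have het : |et p| = |(p.2.1 : ℝ)| / |(p.2.2 : ℝ)| := abs_div _ _
  have hxi1 : |xi p| ≤ 1 := by rw [hxi, div_le_one hzpos]; exact hp.x_le
  have het1 : |et p| ≤ 1 := by rw [het, div_le_one hzpos]; exact hp.y_le
  have hxiβ : β ≤ |xi p| := by
    rw [hxi, le_div_iff₀ hzpos]
    calc β * |(p.2.2 : ℝ)| ≤ β * B := mul_le_mul_of_nonneg_left hp.z_le hβ.le
      _ ≤ _ := hp.x_ge
  have hetβ : β ≤ |et p| := by
    rw [het, le_div_iff₀ hzpos]
    calc β * |(p.2.2 : ℝ)| ≤ β * B := mul_le_mul_of_nonneg_left hp.z_le hβ.le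
      _ ≤ _ := hp.y_ge
  have heq : xi p ^ 3 + et p ^ 3 + 1 = (k : ℝ) / (p.2.2 : ℝ) ^ 3 := by
    have hs : (p.1 : ℝ) ^ 3 + (p.2.1 : ℝ) ^ 3 + (p.2.2 : ℝ) ^ 3 = (k : ℝ) := by
      have := hp.sol
      unfold Fm at this
      exact_mod_cast this
    rw [← hs]
    unfold xi et
    field_simp
  have hk8 : |(k : ℝ) / (p.2.2 : ℝ) ^ 3| ≤ 8 * |(k : ℝ)| / B ^ 3 := by
    rw [abs_div, abs_pow, div_le_div_iff₀ (by positivity) (by positivity)]
    have h2 : B ^ 3 ≤ 8 * |(p.2.2 : ℝ)| ^ 3 := by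
      have h3 : B ≤ 2 * |(p.2.2 : ℝ)| := by linarith
      calc B ^ 3 ≤ (2 * |(p.2.2 : ℝ)|) ^ 3 := pow_le_pow_left₀ hB0.le h3 3
        _ = 8 * |(p.2.2 : ℝ)| ^ 3 := by ring
    calc |(k : ℝ)| * B ^ 3 ≤ |(k : ℝ)| * (8 * |(p.2.2 : ℝ)| ^ 3) := mul_le_mul_of_nonneg_left h2 (abs_nonneg _)
      _ = 8 * |(k : ℝ)| * |(p.2.2 : ℝ)| ^ 3 := by ring
  have hsmall : 8 * |(k : ℝ)| / B ^ 3 < β ^ 3 := by
    rw [div_lt_iff₀ (by positivity)]
    have h1 : 90 * (16 * |(k : ℝ)|) ≤ β ^ 9 * B := by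
      calc 90 * (16 * |(k : ℝ)|) ≤ 90 * (B * lam) := by linarith [hP.kB]
        _ = (90 * lam) * B := by ring
        _ ≤ β ^ 9 * B := mul_le_mul_of_nonneg_right hP.lb hB0.le
    have h2 : β ^ 9 * B ≤ β ^ 3 * B ^ 3 := by
      have h3 : β ^ 9 ≤ β ^ 3 := pow_le_pow_of_le_one hβ.le hβ1 (by norm_num)
      have h4 : B ≤ B ^ 3 := by
        calc B = B ^ 1 := (pow_one B).symm
          _ ≤ B ^ 3 := pow_le_pow_right₀ hB (by norm_num)
      exact mul_le_mul h3 h4 hB0.le (by positivity)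
    have h5 : 0 < |(k : ℝ)| := by linarith
    linarith
  have hklt := (abs_lt.1 (hk8.trans_lt hsmall)).2
  have cub : ∀ a : ℝ, β ≤ a → β ^ 3 ≤ a ^ 3 := fun a ha => pow_le_pow_left₀ hβ.le ha 3
  have cubm : ∀ a : ℝ, |a| ≤ 1 → -1 ≤ a ^ 3 := by
    intro a ha
    have h1 := (abs_le.1 ha).1
    have h2 := (abs_le.1 ha).2
    nlinarith [sq_nonneg a, sq_nonneg (a - 1), sq_nonneg (a + 1)]
  have hetneg : et p ≤ -β := by
    rcases le_or_gt 0 (et p) with h | h
    · exfalso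
      rw [abs_of_nonneg h] at hetβ
      have h1 := cub _ hetβ
      have h2 := cubm _ hxi1
      linarith
    · rw [abs_of_neg h] at hetβ
      linarith
  have hxineg : xi p ≤ -β := by
    rcases le_or_gt 0 (xi p) with h | h
    · exfalso
      rw [abs_of_nonneg h] at hxiβ
      have h1 := cub _ hxiβ
      have h2 := cubm _ het1
      linarith
    · rw [abs_of_neg h] at hxiβ
      linarith
  exact ⟨⟨(abs_le.1 hxi1).1, hxineg, (abs_le.1 het1).1, hetneg⟩, heq, hk8⟩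

end Pool.Agent.Helper92.PW
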