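import Pool.Agent.Helper92.PW.St

/-! # PW MODULE PAT -/

set_option autoImplicit false

open Finset

noncomputable section

namespace Pool.Agent.Helper92.PW

theorem ver_le_PAT (k : ℤ) (B β : ℝ) (p : Pt) (h : Gen k B β p) (hB : 1 ≤ B) (j : Fin 6) :
    |(ver p j : ℝ)| ≤ B ^ 2 := by
  have hz := h.z_le
  have hx : |(p.1 : ℝ)| ≤ B := h.x_le.trans hz
  have hy : |(p.2.1 : ℝ)| ≤ B := h.y_le.trans hz
  have h0x := abs_nonneg (p.1 : ℝ)
  have h0y := abs_nonneg (p.2.1 : ℝ)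
  have h0z := abs_nonneg (p.2.2 : ℝ)
  have key : ∀ a b : ℝ, |a| ≤ B → |b| ≤ B → |a * b| ≤ B ^ 2 := by
    intro a b ha hb
    rw [abs_mul, pow_two]
    exact mul_le_mul ha hb (abs_nonneg _) (by linarith)
  have key2 : ∀ a : ℝ, |a| ≤ B → |a ^ 2| ≤ B ^ 2 := by
    intro a ha
    rw [pow_two a]
    exact key a a ha ha
  fin_cases j
  · simpa [ver] using key2 _ hx
  · simpa [ver] using key _ _ hx hy
  · simpa [ver] using key2 _ hy
  · simpa [ver] using key _ _ hx hz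
  · simpa [ver] using key _ _ hy hz
  · simpa [ver] using key2 _ hz

/-- the linear functional `p ↦ b₁ det3 p₀ p f₂ + b₂ det3 p₀ f₁ p` -/
def fnl_PAT (b1 b2 : ℤ) (p0 f1 f2 : Pt) : Pt :=
  b1 • crs f2 p0 + b2 • crs p0 f1

theorem dot_fnl_PAT (b1 b2 : ℤ) (p0 f1 f2 p : Pt) :
    dot (fnl_PAT b1 b2 p0 f1 f2) p = b1 * det3 p0 p f2 + b2 * det3 p0 f1 p := by
  simp only [fnl_PAT, dot, det3, crs, Prod.fst_add, Prod.snd_add, Prod.smul_fst, Prod.smul_snd, smul_eq_mul]
  ring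

theorem fnl_ne_PAT (b1 b2 : ℤ) (p0 f1 f2 : Pt) (h : det3 p0 f1 f2 = 1) (hb : b1 ≠ 0 ∨ b2 ≠ 0) :
    fnl_PAT b1 b2 p0 f1 f2 ≠ 0 := by
  intro h0
  have e1 := dot_fnl_PAT b1 b2 p0 f1 f2 f1
  have e2 := dot_fnl_PAT b1 b2 p0 f1 f2 f2
  rw [h0] at e1 e2
  have z1 : det3 p0 f1 f1 = 0 := by simp only [det3, dot, crs]; ring
  have z2 : det3 p0 f2 f2 = 0 := by simp only [det3, dot, crs]; ring
  have d0 : ∀ p : Pt, dot 0 p = 0 := by intro p; simp [dot]
  rw [d0, h, z1] at e1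
  rw [d0, h, z2] at e2
  rcases hb with hb | hb
  · exact hb (by linarith)
  · exact hb (by linarith)

theorem hPAT (hDET : StDET) (hRNK : StRNK) (hBAS : StBAS) (hCON : StCON) (hDIS : StDIS) (hDEG : StDEG)
    (hPLN : StPLN) (hMAI : StMAI) : StPAT := by
  classical
  intro k B β lam hP hk S hS hd
  have hβ := hP.b0
  have hκ := hP.k1
  have hB := hP.B1
  have hl := hP.l0
  have hN : 0 ≤ 3102 * |(k : ℝ)| / β ^ 7 := by positivity
  have hX : 0 ≤ (B * lam) ^ (3 / 4 : ℝ) / β ^ 2 := by positivity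
  have hbig : (1 : ℝ) ≤ 8 * ((6 * B ^ 2) ^ 5) ^ 3 := by
    have h1 : (1 : ℝ) ≤ B ^ 2 := one_le_pow₀ hB
    have h2 : (1 : ℝ) ≤ 6 * B ^ 2 := by linarith
    have h3 : (1 : ℝ) ≤ ((6 * B ^ 2) ^ 5) ^ 3 := one_le_pow₀ (one_le_pow₀ h2)
    linarith
  rcases S.eq_empty_or_nonempty with rfl | ⟨p0, hp0⟩
  · refine ⟨1, le_refl _, by simpa using hbig, ?_⟩
    simp only [Finset.card_empty, Nat.cast_zero]
    positivity
  have hG0 := hS p0 hp0
  have hdet : ∀ p : Fin 6 → Pt, (∀ i, p i ∈ S) →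
      Matrix.det (Matrix.of fun i j : Fin 6 => ver (p i) j) = 0 :=
    fun p hp => hDET k B β lam hP p0 hG0 p (fun i => hS _ (hp i)) (fun i => hd _ (hp i) _ hp0)
  obtain ⟨Q, hQ0, hQb, hQ⟩ := hRNK B S hB hdet (fun p hp j => ver_le_PAT k B β p (hS p hp) hB j)
  obtain ⟨f1, f2, hf⟩ := hBAS p0 hG0.prm
  by_cases hdeg : (Bf Q p0 f1 = 0 ∧ Bf Q p0 f2 = 0) ∨ RR Q p0 f1 f2 = 0
  · obtain ⟨N1, N2, h1, h2, h12⟩ := hDEG Q p0 f1 f2 hQ0 hf (hQ p0 hp0) hdeg S hQ
    refine ⟨1, le_refl _, by simpa using hbig, ?_⟩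
    have hc1 := hPLN k B β lam hP hk N1 h1 (S.filter fun p => dot N1 p = 0)
      (fun p hp => ⟨hS p (Finset.mem_filter.1 hp).1, (Finset.mem_filter.1 hp).2⟩)
      (fun p hp q hq => hd p (Finset.mem_filter.1 hp).1 q (Finset.mem_filter.1 hq).1)
    have hc2 := hPLN k B β lam hP hk N2 h2 (S.filter fun p => dot N2 p = 0)
      (fun p hp => ⟨hS p (Finset.mem_filter.1 hp).1, (Finset.mem_filter.1 hp).2⟩)
      (fun p hp q hq => hd p (Finset.mem_filter.1 hp).1 q (Finset.mem_filter.1 hq).1)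
    have hsub : S ⊆ (S.filter fun p => dot N1 p = 0) ∪ (S.filter fun p => dot N2 p = 0) := by
      intro p hp
      rcases h12 p hp with h | h
      · exact Finset.mem_union_left _ (Finset.mem_filter.2 ⟨hp, h⟩)
      · exact Finset.mem_union_right _ (Finset.mem_filter.2 ⟨hp, h⟩)
    have hcard := (Finset.card_le_card hsub).trans (Finset.card_union_le _ _)
    have hcard' : (S.card : ℝ) ≤ ((S.filter fun p => dot N1 p = 0).card : ℝ) +
        ((S.filter fun p => dot N2 p = 0).card : ℝ) := by exact_mod_cast hcard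
    have h6 : 6204 * |(k : ℝ)| / β ^ 7 = 3102 * |(k : ℝ)| / β ^ 7 + 3102 * |(k : ℝ)| / β ^ 7 := by ring
    have h7 : 0 ≤ 156 * (((1 : ℕ).divisors.card : ℕ) : ℝ) * ((B * lam) ^ (3 / 4 : ℝ) / β ^ 2) := by positivity
    linarith
  · have hb : Bf Q p0 f1 ≠ 0 ∨ Bf Q p0 f2 ≠ 0 := by
      by_contra hcon
      push Not at hcon
      exact hdeg (Or.inl hcon)
    have hR : RR Q p0 f1 f2 ≠ 0 := fun h => hdeg (Or.inr h)
    set R := RR Q p0 f1 f2 with hRdef
    have hRn : R.natAbs ≠ 0 := Int.natAbs_ne_zero.2 hR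
    refine ⟨R.natAbs, Nat.one_le_iff_ne_zero.2 hRn, ?_, ?_⟩
    · have h1 := hDIS Q p0 f1 f2 ((6 * B ^ 2) ^ 5) hf (hQ p0 hp0) hQb
      have h2 : ((R.natAbs : ℕ) : ℝ) = |(R : ℝ)| := by
        rw [Nat.cast_natAbs, Int.cast_abs]
      rw [h2]
      exact h1
    · set N := fnl_PAT (Bf Q p0 f1) (Bf Q p0 f2) p0 f1 f2 with hNdef
      have hNne : N ≠ 0 := fnl_ne_PAT _ _ _ _ _ hf hb
      have hdN : ∀ p : Pt, dot N p = lb Q p0 f1 f2 (det3 p0 p f2, det3 p0 f1 p) := by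
        intro p
        rw [hNdef, dot_fnl_PAT]
        simp [lb]
      set S1 := S.filter fun p => dot N p = 0 with hS1
      set S2 := S.filter fun p => ¬ dot N p = 0 with hS2
      have hc1 := hPLN k B β lam hP hk N hNne S1
        (fun p hp => ⟨hS p (Finset.mem_filter.1 hp).1, (Finset.mem_filter.1 hp).2⟩)
        (fun p hp q hq => hd p (Finset.mem_filter.1 hp).1 q (Finset.mem_filter.1 hq).1)
      have hsplit : S1.card + S2.card = S.card := Finset.card_filter_add_card_filter_not _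
      -- data for the points of S2
      have hdat : ∀ p : Pt, ∃ c : ℤ, p ∈ S2 → (c ≠ 0 ∧ c ∣ R ∧ ∃ a g u v : ℤ, 1 ≤ g ∧ IsCoprime u v ∧
          lb Q p0 f1 f2 (u, v) = g * c ∧ p = a • p0 + g • lf f1 f2 (u, v) ∧ c • p = cur Q p0 f1 f2 (u, v)) := by
        intro p
        by_cases hp : p ∈ S2
        · obtain ⟨hpS, hpn⟩ := Finset.mem_filter.1 hp
          rw [hdN] at hpn
          obtain ⟨a, g, u, v, c, h1, h2, h3, h4, h5, h6, h7⟩ := hCON Q p0 f1 f2 p hf (hQ p0 hp0) (hQ p hpS)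
            (hS p hpS).prm hpn
          exact ⟨c, fun _ => ⟨h3, h4, a, g, u, v, h1, h2, h5, h6, h7⟩⟩
        · exact ⟨0, fun h => absurd h hp⟩
      choose cf hcf using hdat
      set D : Finset ℤ := (R.natAbs.divisors.image fun n : ℕ => (n : ℤ)) ∪
        (R.natAbs.divisors.image fun n : ℕ => -(n : ℤ)) with hD
      have hDcard : D.card ≤ 2 * R.natAbs.divisors.card := by
        have h1 : (R.natAbs.divisors.image fun n : ℕ => (n : ℤ)).card ≤ R.natAbs.divisors.card :=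
          Finset.card_image_le
        have h2 : (R.natAbs.divisors.image fun n : ℕ => -(n : ℤ)).card ≤ R.natAbs.divisors.card :=
          Finset.card_image_le
        have h3 := Finset.card_union_le (R.natAbs.divisors.image fun n : ℕ => (n : ℤ))
          (R.natAbs.divisors.image fun n : ℕ => -(n : ℤ))
        rw [hD]
        omega
      have hmaps : ∀ p ∈ S2, cf p ∈ D := by
        intro p hp
        obtain ⟨h1, h2, -⟩ := hcf p hp
        have h3 : (cf p).natAbs ∈ R.natAbs.divisors :=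
          Nat.mem_divisors.2 ⟨Int.natAbs_dvd_natAbs.2 h2, hRn⟩
        rcases Int.natAbs_eq (cf p) with h | h
        · exact Finset.mem_union_left _ (Finset.mem_image.2 ⟨_, h3, h.symm⟩)
        · exact Finset.mem_union_right _ (Finset.mem_image.2 ⟨_, h3, h.symm⟩)
      have hfib : ∀ c ∈ D, ((S2.filter fun p => cf p = c).card : ℝ) ≤ 78 * (B * lam) ^ (3 / 4 : ℝ) / β ^ 2 := by
        intro c hc
        by_cases hc0 : c = 0
        · have hemp : (S2.filter fun p => cf p = c) = ∅ := by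
            apply Finset.filter_eq_empty_iff.2
            intro p hp h
            exact (hcf p hp).1 (h.trans hc0)
          rw [hemp]
          simp only [Finset.card_empty, Nat.cast_zero]
          positivity
        · refine hMAI k B β lam hP hk Q p0 f1 f2 hG0 hf hb c hc0 _ ?_
          intro p hp
          obtain ⟨hp2, hpc⟩ := Finset.mem_filter.1 hp
          have hpS := (Finset.mem_filter.1 hp2).1
          obtain ⟨-, -, a, g, u, v, h1, h2, h3, h4, h5⟩ := hcf p hp2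
          rw [hpc] at h3 h5
          exact ⟨hS p hpS, hd p hpS p0 hp0, a, g, u, v, h1, h2, h3, h4, h5⟩
      have hc2 : (S2.card : ℝ) ≤ D.card * (78 * (B * lam) ^ (3 / 4 : ℝ) / β ^ 2) := by
        rw [Finset.card_eq_sum_card_fiberwise hmaps]
        push_cast
        calc ∑ c ∈ D, ((S2.filter fun p => cf p = c).card : ℝ)
            ≤ ∑ _c ∈ D, (78 * (B * lam) ^ (3 / 4 : ℝ) / β ^ 2) := Finset.sum_le_sum hfib
          _ = D.card * (78 * (B * lam) ^ (3 / 4 : ℝ) / β ^ 2) := by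
            rw [Finset.sum_const, nsmul_eq_mul]
      have hDc : (D.card : ℝ) ≤ 2 * (R.natAbs.divisors.card : ℝ) := by exact_mod_cast hDcard
      have h78 : 0 ≤ 78 * (B * lam) ^ (3 / 4 : ℝ) / β ^ 2 := by positivity
      have h9 : (D.card : ℝ) * (78 * (B * lam) ^ (3 / 4 : ℝ) / β ^ 2) ≤
          156 * (R.natAbs.divisors.card : ℝ) * ((B * lam) ^ (3 / 4 : ℝ) / β ^ 2) := by
        calc (D.card : ℝ) * (78 * (B * lam) ^ (3 / 4 : ℝ) / β ^ 2)
            ≤ (2 * (R.natAbs.divisors.card : ℝ)) * (78 * (B * lam) ^ (3 / 4 : ℝ) / β ^ 2) :=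
              mul_le_mul_of_nonneg_right hDc h78
          _ = 156 * (R.natAbs.divisors.card : ℝ) * ((B * lam) ^ (3 / 4 : ℝ) / β ^ 2) := by ring
      have hS' : (S.card : ℝ) = (S1.card : ℝ) + (S2.card : ℝ) := by exact_mod_cast hsplit.symm
      have h6 : 6204 * |(k : ℝ)| / β ^ 7 = 3102 * |(k : ℝ)| / β ^ 7 + 3102 * |(k : ℝ)| / β ^ 7 := by ring
      linarith

end Pool.Agent.Helper92.PW
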