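import Pool.Agent.Helper92.PW.M_RC
import Pool.Agent.Helper92.PW.M_DIS
import Pool.Agent.Helper92.PW.M_PAT
import Pool.Agent.Helper83.PW.M_POL
import Pool.Agent.Helper44.PW.M_LN3
import Pool.Agent.Helper9.PW.M_CON
import Pool.Agent.Helper9.PW.M_LN6
import Pool.Agent.Helper37.PW.M_DEG
import Pool.Agent.Helper91.PW.M_RNK
import Pool.Agent.Helper91.PW.M_LOD
import Pool.Agent.Helper91.PW.M_DYP
import Pool.Agent.Helper10.PW.M_DT6
import Pool.Agent.Helper21.PW.M_PLG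
import Pool.Agent.Helper21.PW.M_HGT
import Pool.Agent.Helper8.PW.M_PLC
import Pool.Agent.Helper93.PW.M_PLN
import Pool.Agent.Helper38.PW.M_DYA
import Pool.Agent.Helper95.PW.M_FIN
import Pool.Agent.Helper15.AB.M_DB

/-! # Project PW: assembly -/

set_option autoImplicit false

namespace Pool.Agent.Helper92.PW

theorem aDIV : StDIV := by
  intro ε hε
  obtain ⟨C, hC, h⟩ := Pool.Agent.Helper15.AB.hDB ε hε
  exact ⟨C, by linarith, h⟩

theorem aLN3 : StLN3 := Pool.Agent.Helper44.PW.hLN3 Pool.Agent.Helper83.PW.hPOL hRC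

theorem aLN6 : StLN6 := Pool.Agent.Helper9.PW.hLN6 Pool.Agent.Helper83.PW.hPOL hRC

theorem asm (hLOC : StLOC) (hMNK : StMNK)
    (hDET : StSGN → StLOD → StDT6 → StDET)
    (hMAI : StSGN → StLOC → StLN6 → StMNK → StMAI)
    (hGEN : StPAT → StSGN → StDIV → StGEN) (hSK : StSK) : StFIN := by
  have hLOD : StLOD := Pool.Agent.Helper91.PW.hLOD hLOC
  have hPLG : StPLG := Pool.Agent.Helper21.PW.hPLG hSGN hLOC
  have hPLC : StPLC := Pool.Agent.Helper8.PW.hPLC hSGN hLOC aLN3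
  have hPLN : StPLN := Pool.Agent.Helper93.PW.hPLN hPLG hPLC
  have hPAT' : StPAT := hPAT (hDET hSGN hLOD Pool.Agent.Helper10.PW.hDT6) Pool.Agent.Helper91.PW.hRNK hBAS
    Pool.Agent.Helper9.PW.hCON hDIS Pool.Agent.Helper37.PW.hDEG hPLN (hMAI hSGN hLOC aLN6 hMNK)
  have hG : StGEN := hGEN hPAT' hSGN aDIV
  have hDYP : StDYP := Pool.Agent.Helper91.PW.hDYP hG hSK
  exact Pool.Agent.Helper95.PW.hFIN (Pool.Agent.Helper21.PW.hHGT (Pool.Agent.Helper38.PW.hDYA hDYP)) hSK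

end Pool.Agent.Helper92.PW
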