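import Pool.Agent.Helper92.PW.St
import Pool.Agent.Helper21.CU.Asm2
import Pool.Agent.Helper79.CU.M_CRT
import Pool.Agent.Helper62.CU.M_PP
import Pool.Agent.Helper57.CU.M_NF
import Pool.Agent.Helper42.CU.M_DBL
import Pool.Agent.Helper4.CU.M_PIG
import Pool.Agent.Helper26.CU.M_SQ
import Pool.Agent.Helper84.CU.M_MUL
import Pool.Agent.Helper47.CU.M_CNT
import Pool.Agent.Helper18.CU.M_QPR
import Pool.Agent.Helper80.CU.M_NSQ
import Pool.Agent.Helper79.CU.M_ONE
import Pool.Agent.Helper21.CU.M_SUM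
import Pool.Agent.Helper52.CU.M_PS2
import Pool.Agent.Helper69.CU.M_FI2
import Pool.Agent.Helper13.BI.M_LS
import Pool.Agent.Helper95.BI.M_L1
import Pool.Agent.Helper75.BI.M_L2
import Pool.Agent.Helper98.BI.M_L3
import Pool.Agent.Helper15.AB.M_GA
import Pool.Agent.Helper48.BK.Top

/-! # Project PW: few skew solutions, from the library of project CU -/

set_option autoImplicit false

namespace Pool.Agent.Helper92.PW

open Pool.Agent.Helper21.CU in
theorem aFI2 : StFI2 := by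
  have hCRT := Pool.Agent.Helper79.CU.hCRT
  have hPP := Pool.Agent.Helper62.CU.hPP
  have hSQ : StSQ := Pool.Agent.Helper26.CU.hSQ Pool.Agent.Helper57.CU.hNF Pool.Agent.Helper42.CU.hDBL Pool.Agent.Helper4.CU.hPIG hCRT hPP
  have hCNT : StCNT := Pool.Agent.Helper47.CU.hCNT hSQ hCRT hPP Pool.Agent.Helper84.CU.hMUL
  have hLSc : Pool.Agent.Helper2.BI.LSc :=
    Pool.Agent.Helper13.BI.hLS Pool.Agent.Helper95.BI.hL1 Pool.Agent.Helper75.BI.hL2
      Pool.Agent.Helper98.BI.hL3 Pool.Agent.Helper15.AB.hGA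
  have hONE : StONE := Pool.Agent.Helper79.CU.hONE (Pool.Agent.Helper18.CU.hQPR Pool.Agent.Helper48.BK.tSW) Pool.Agent.Helper80.CU.hNSQ hLSc
  exact Pool.Agent.Helper69.CU.hFI2 (Pool.Agent.Helper52.CU.hPS2 hONE (Pool.Agent.Helper21.CU.hSUM hCNT))

theorem aSK : StSK := aFI2

end Pool.Agent.Helper92.PW
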