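import Pool.Agent.Helper92.PW.Asm
import Pool.Agent.Helper92.PW.Skew
import Pool.Agent.Helper72.PW.M_LOC
import Pool.Agent.Helper9.PW.M_MNK
import Pool.Agent.Helper96.PW.M_DET
import Pool.Agent.Helper21.PW.M_MAI
import Pool.Agent.Helper32.PW.M_GEN

/-!
# MP_ad0dc2_nt: power saving for the number of integer solutions of `x³ + y³ + z³ = k`

For every integer `k` that is not a cube there is `C` such that for every real `Z ≥ 1` the equation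
`x³ + y³ + z³ = k` has at most `C Z^(199/200)` integer solutions with `|z| ≤ Z` (`x, y` arbitrary).
-/

set_option autoImplicit false

namespace Pool.Agent.Results.MP_ad0dc2_nt.PowerSaving

theorem result : ∀ k : ℤ, (∀ m : ℤ, m ^ 3 ≠ k) → ∃ C : ℝ, ∀ Z : ℝ, 1 ≤ Z →
    {p : ℤ × ℤ × ℤ | p.1 ^ 3 + p.2.1 ^ 3 + p.2.2 ^ 3 = k ∧ |(p.2.2 : ℝ)| ≤ Z}.Finite ∧
    (({p : ℤ × ℤ × ℤ | p.1 ^ 3 + p.2.1 ^ 3 + p.2.2 ^ 3 = k ∧ |(p.2.2 : ℝ)| ≤ Z}.ncard : ℕ) : ℝ) ≤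
      C * Z ^ (199 / 200 : ℝ) :=
  Pool.Agent.Helper92.PW.asm Pool.Agent.Helper72.PW.hLOC Pool.Agent.Helper9.PW.hMNK
    Pool.Agent.Helper96.PW.hDET Pool.Agent.Helper21.PW.hMAI Pool.Agent.Helper32.PW.hGEN
    Pool.Agent.Helper92.PW.aSK

end Pool.Agent.Results.MP_ad0dc2_nt.PowerSaving
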