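import Mathlib

/-!
# Project PW (MP_ad0dc2_nt): power saving for `x³ + y³ + z³ = k`

THEOREM.  For every integer `k` that is not a cube there is `C` such that for all `Z ≥ 1` the equation
`x³ + y³ + z³ = k` has at most `C Z^(199/200)` integer solutions with `|z| ≤ Z` (`x, y` arbitrary).

PLAN (paper version: team-store `MP_ad0dc2-helper92-powersaving.md`).  Generic primitive solutions of height `B` are
rational points within `B⁻³` of the Fermat cubic.  All of them in an arc (`patch`) of length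
`λ = B^(-23/25)` lie on one quadratic cone (`StDET`, `StRNK`).  On a plane through `0` there are few (`StPLN`).  On the
cone they are parametrized by primitive pairs `(u, v)` with `F(cur (u, v)) = k c³`, `c ∣ R` (`StCON`), every line of the
`(u, v)`-plane contains at most six of them (`StLN6`), and counting lines (`StMAI`, `StMNK`) gives
`(B λ)^(3/4)` instead of `B λ` points per patch.

A module proves `theorem hX (h1 : StA) ... : StX` in the file `Pool/Agent/<You>/PW/M_X.lean`, namespace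
`Pool.Agent.<You>.PW`, where `StA, ...` are the statements it uses (listed in its doc).  If a statement is wrong as
written, tell helper92 at once.
-/

set_option autoImplicit false
set_option linter.unusedVariables false

open Finset

noncomputable section

namespace Pool.Agent.Helper92.PW

/-! ## Definitions -/

/-- points of `ℤ³` -/
abbrev Pt := ℤ × ℤ × ℤ

/-- `k` is not a cube -/
def NC (k : ℤ) : Prop := ∀ m : ℤ, m ^ 3 ≠ k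

/-- the Fermat cubic form `x³ + y³ + z³` -/
def Fm (p : Pt) : ℤ := p.1 ^ 3 + p.2.1 ^ 3 + p.2.2 ^ 3

/-- scalar product -/
def dot (n p : Pt) : ℤ := n.1 * p.1 + n.2.1 * p.2.1 + n.2.2 * p.2.2

/-- vector product -/
def crs (n m : Pt) : Pt :=
  (n.2.1 * m.2.2 - n.2.2 * m.2.1, n.2.2 * m.1 - n.1 * m.2.2, n.1 * m.2.1 - n.2.1 * m.1)

/-- determinant of three vectors -/
def det3 (a b c : Pt) : ℤ := dot a (crs b c)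

/-- the quadratic monomials -/
def ver (p : Pt) : Fin 6 → ℤ :=
  ![p.1 ^ 2, p.1 * p.2.1, p.2.1 ^ 2, p.1 * p.2.2, p.2.1 * p.2.2, p.2.2 ^ 2]

/-- the quadratic form with coefficient vector `Q` -/
def Qf (Q : Fin 6 → ℤ) (p : Pt) : ℤ := ∑ j, Q j * ver p j

/-- its polar form (`Bf Q p p = 2 Qf Q p`) -/
def Bf (Q : Fin 6 → ℤ) (p q : Pt) : ℤ := Qf Q (p + q) - Qf Q p - Qf Q q

/-- `u f₁ + v f₂` for `w = (u, v)` -/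
def lf (f1 f2 : Pt) (w : ℤ × ℤ) : Pt := w.1 • f1 + w.2 • f2

/-- the linear form `b(u, v) = b₁ u + b₂ v`, `b₁ = Bf Q p₀ f₁`, `b₂ = Bf Q p₀ f₂` -/
def lb (Q : Fin 6 → ℤ) (p0 f1 f2 : Pt) (w : ℤ × ℤ) : ℤ := Bf Q p0 f1 * w.1 + Bf Q p0 f2 * w.2

/-- the quadratic form `q(u, v) = Q(u f₁ + v f₂)` -/
def qq (Q : Fin 6 → ℤ) (f1 f2 : Pt) (w : ℤ × ℤ) : ℤ := Qf Q (lf f1 f2 w)

/-- `R = q(b₂, -b₁)` -/
def RR (Q : Fin 6 → ℤ) (p0 f1 f2 : Pt) : ℤ := qq Q f1 f2 (Bf Q p0 f2, -Bf Q p0 f1)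

/-- the parametrization of the cone `Q = 0` by the projection from `p₀`: `-q(w) p₀ + b(w) (u f₁ + v f₂)` -/
def cur (Q : Fin 6 → ℤ) (p0 f1 f2 : Pt) (w : ℤ × ℤ) : Pt :=
  (-qq Q f1 f2 w) • p0 + lb Q p0 f1 f2 w • lf f1 f2 w

/-- `ξ = x / z` -/
def xi (p : Pt) : ℝ := (p.1 : ℝ) / (p.2.2 : ℝ)

/-- `η = y / z` -/
def et (p : Pt) : ℝ := (p.2.1 : ℝ) / (p.2.2 : ℝ)

/-- primitive vector -/
def Prm (p : Pt) : Prop := ∀ d : ℤ, d ∣ p.1 → d ∣ p.2.1 → d ∣ p.2.2 → IsUnit d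

/-- `p` is a generic primitive solution of `x³ + y³ + z³ = k` at height `B` -/
structure Gen (k : ℤ) (B β : ℝ) (p : Pt) : Prop where
  sol : Fm p = k
  prm : Prm p
  x_le : |(p.1 : ℝ)| ≤ |(p.2.2 : ℝ)|
  y_le : |(p.2.1 : ℝ)| ≤ |(p.2.2 : ℝ)|
  z_gt : B / 2 < |(p.2.2 : ℝ)|
  z_le : |(p.2.2 : ℝ)| ≤ B
  x_ge : β * B ≤ |(p.1 : ℝ)|
  y_ge : β * B ≤ |(p.2.1 : ℝ)|

/-- the parameters: `B` = height, `β` = `B^(-1/200)`, `lam` = length of the patches, `B^(-23/25)` -/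
structure Par (k : ℤ) (B β lam : ℝ) : Prop where
  k1 : 1 ≤ |(k : ℝ)|
  B1 : 1 ≤ B
  b0 : 0 < β
  b1 : β ≤ 1
  l0 : 0 < lam
  kB : 16 * |(k : ℝ)| ≤ B * lam
  lb : 90 * lam ≤ β ^ 9
  l4 : lam ^ 4 * B ^ 3 ≤ 1
  dt : 160358400 * |(k : ℝ)| * B ^ 9 * lam ^ 10 < β ^ 39

/-- the exponent `θ = (199/200)²` -/
def th : ℝ := (199 / 200) ^ 2

/-! ## Input from the library (already proved; take them as hypotheses) -/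

/-- divisor bound (library: `Pool.Agent.Helper15.AB.StSD`) -/
def StDIV : Prop := ∀ ε : ℝ, 0 < ε → ∃ C : ℝ, 0 < C ∧ ∀ n : ℕ, 1 ≤ n → (n.divisors.card : ℝ) ≤ C * (n : ℝ) ^ ε

/-- few skew solutions (library: `Pool.Agent.Helper21.CU.StFI2`) -/
def StSK : Prop := ∀ k : ℤ, NC k → ∃ C : ℝ, 0 < C ∧ ∀ (Z M : ℕ) (T : Finset (ℤ × ℤ × ℤ)), 2 ≤ Z → Z ≤ M →
  (∀ t ∈ T, t.1 ^ 3 + t.2.1 ^ 3 + t.2.2 ^ 3 = k ∧ |t.2.2| ≤ Z ∧ (M : ℤ) ≤ max |t.1| |t.2.1|) →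
  (T.card : ℝ) ≤ C * (Z : ℝ) ^ 2 / M * Real.log Z

/-! ## Part 1: algebra -/

/-- **RC** (uses nothing; 15 lines).  PROOF.  `(r / b)³ = k`; a rational root of the monic integral polynomial
`X³ - k` is an integer (e.g. `num_dvd/den_dvd` or `IsIntegrallyClosed`), contradiction to `NC k`. -/
def StRC : Prop := ∀ k b : ℤ, NC k → b ≠ 0 → ∀ r : ℚ, r ^ 3 ≠ ((k * b ^ 3 : ℤ) : ℚ)

/-- **POL** (uses nothing; about 90 lines).  No nonconstant rational curve of degree `≤ 2` on `x³ + y³ + z³ = c`, `c` not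
a rational cube.
PROOF.  Let `d` be the maximum of the three degrees and suppose `d ≥ 1`, so `d ∈ {1, 2}`.  Let `a, b, e` be the
coefficients of `X^d`; the coefficient of `X^(3d)` gives `a³ + b³ + e³ = 0`.  By Fermat's last theorem for exponent 3
over `ℚ` (Mathlib `fermatLastTheoremThree`, transfer lemmas `fermatLastTheoremFor_iff_int/rat`, sign: `a³ + b³ = (-e)³`)
one of them is `0`, by symmetry `e = 0`; then `b = -a ≠ 0`.  `x² - x y + y²` has coefficient `3 a² ≠ 0` at `X^(2d)`;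
`S = x + y` satisfies `S (x² - x y + y²) = c - z³` and `z` has degree `≤ d - 1`.  If `S = 0`, then `z³ = c`, so `z` is
constant and `c` is a cube, contradiction.  If `S ≠ 0`, the left side has degree `≥ 2d` and the right side has degree
`≤ 3 (d - 1)`, so `d ≥ 3`, contradiction. -/
def StPOL : Prop := ∀ c : ℚ, (∀ r : ℚ, r ^ 3 ≠ c) → ∀ x y z : Polynomial ℚ, x.natDegree ≤ 2 → y.natDegree ≤ 2 →
  z.natDegree ≤ 2 → x ^ 3 + y ^ 3 + z ^ 3 = Polynomial.C c → x.natDegree = 0 ∧ y.natDegree = 0 ∧ z.natDegree = 0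

/-- **LN3** (uses `StPOL`, `StRC`; about 70 lines).  A line contains at most three integral solutions.
PROOF.  Suppose `card ≥ 4`.  Take `p₀ ≠ p₁` in `S`, `e = p₁ - p₀ ≠ 0`; `dot N e = dot M e = 0`, and since `crs N M ≠ 0`
the kernel of `(N, M)` is one-dimensional (both `e` and `p - p₀` are rational multiples of `crs N M`), so every `p ∈ S`
is `p₀ + s e` with `s ∈ ℚ`.  The polynomials `x(s), y(s), z(s)` of degree `≤ 1` (coordinates of `p₀ + s e`) make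
`x³ + y³ + z³ - k` a polynomial of degree `≤ 3` with `≥ 4` roots, so it is `0`; by `StPOL` (`c = k`, not a rational cube by
`StRC` with `b = 1`) the coordinates are constant, `e = 0`, contradiction. -/
def StLN3 : Prop := ∀ (k : ℤ), NC k → ∀ (N M : Pt) (A : ℤ), crs N M ≠ 0 → ∀ S : Finset Pt,
  (∀ p ∈ S, Fm p = k ∧ dot N p = 0 ∧ dot M p = A) → S.card ≤ 3

/-- **BAS** (uses nothing; about 30 lines).  A primitive vector is the first vector of a basis.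
PROOF.  `p₀ = (x, y, z)`, `g = gcd(x, y)`.  If `g = 0` then `z = ±1`: `f₁ = (1, 0, 0)`, `f₂ = (0, z, 0)` (check the
sign).  Otherwise `x = g x'`, `y = g y'`, `a x' + b y' = 1`, `c g + d z = 1`; `f₁ = (-b, a, 0)`, `f₂ = (-d x', -d y', c)`:
`det3 p₀ f₁ f₂ = (c g + d z)(a x' + b y') = 1`. -/
def StBAS : Prop := ∀ p0 : Pt, Prm p0 → ∃ f1 f2 : Pt, det3 p0 f1 f2 = 1

/-- **CON** (uses nothing; about 90 lines).  The parametrization.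
PROOF.  Cramer: `p = a p₀ + u' f₁ + v' f₂` with `a = det3 p f₁ f₂`, `u' = det3 p₀ p f₂`, `v' = det3 p₀ f₁ p` (polynomial
identity `det3 p₀ f₁ f₂ • p = ...`).  `Qf Q` is quadratic and `Qf Q p₀ = 0`, so `0 = Qf Q p = a b(u', v') + q(u', v')`.
`(u', v') ≠ 0` as `b(u', v') ≠ 0`; `g = gcd(u', v') ≥ 1`, `u' = g u`, `v' = g v`, `u, v` coprime.  `a` and `g` are coprime
(a common divisor divides the coordinates of `p`).  `a b(u, v) = -g q(u, v)`, so `g ∣ b(u, v)`, `b(u, v) = g c`,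
`a c = -q(u, v)`, `c ≠ 0`.  So `c ∣ q(u, v)`, `c ∣ b(u, v)`.  Write `q(u,v) = q₀u² + q₁uv + q₂v²`; from
`b₁ u = b(u,v) - b₂ v` one gets `b₁² q(u, v) ≡ v² R (mod b(u, v))`, in the same way `b₂² q(u, v) ≡ u² R`.  So `c ∣ u² R`
and `c ∣ v² R`, hence `c ∣ R` (`u², v²` coprime).  Finally `c p = c a p₀ + c g (u f₁ + v f₂) = cur (u, v)`. -/
def StCON : Prop := ∀ (Q : Fin 6 → ℤ) (p0 f1 f2 p : Pt), det3 p0 f1 f2 = 1 → Qf Q p0 = 0 → Qf Q p = 0 → Prm p →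
  lb Q p0 f1 f2 (det3 p0 p f2, det3 p0 f1 p) ≠ 0 →
  ∃ a g u v c : ℤ, 1 ≤ g ∧ IsCoprime u v ∧ c ≠ 0 ∧ c ∣ RR Q p0 f1 f2 ∧ lb Q p0 f1 f2 (u, v) = g * c ∧
    p = a • p0 + g • lf f1 f2 (u, v) ∧ c • p = cur Q p0 f1 f2 (u, v)

/-- **DIS** (uses nothing; about 40 lines).
PROOF.  `S = !![2Q₀, Q₁, Q₃; Q₁, 2Q₂, Q₄; Q₃, Q₄, 2Q₅]`, `P` = matrix with columns `p₀, f₁, f₂` (`det P = 1`).  The
Gram matrix `Pᵀ S P = (Bf)` has first diagonal entry `2 Qf Q p₀ = 0`; expanding, `-2 R = det (Pᵀ S P) = det S`.  And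
`|det S| ≤ 10 M³ + 3 M³ + 3 M³ = 16 M³`. -/
def StDIS : Prop := ∀ (Q : Fin 6 → ℤ) (p0 f1 f2 : Pt) (M : ℝ), det3 p0 f1 f2 = 1 → Qf Q p0 = 0 →
  (∀ j, |(Q j : ℝ)| ≤ M) → |(RR Q p0 f1 f2 : ℝ)| ≤ 8 * M ^ 3

/-- **LN6** (uses `StPOL`, `StRC`; about 90 lines).  Every line of the `(u, v)`-plane contains at most six parameters.
PROOF.  Suppose `card ≥ 7`, take `w₀ ≠ w₁` in `S`, `e = w₁ - w₀`.  Since `(α, α') ≠ 0` every `w ∈ S` is `w₀ + s e`,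
`s ∈ ℚ`.  The coordinates of `cur (w₀ + s e)` are polynomials `x(s), y(s), z(s) ∈ ℚ[s]` of degree `≤ 2` (`q` is quadratic,
`b` and `lf` are linear), and `x³ + y³ + z³ - k c³` has degree `≤ 6` and `≥ 7` roots, so it is `0`.  `k c³` is not a
rational cube (`StRC`), so by `StPOL` `x, y, z` are constant; in particular `cur w₀ = cur w₁`, so `w₀ = w₁` by the last
hypothesis, contradiction. -/
def StLN6 : Prop := ∀ (k : ℤ), NC k → ∀ (Q : Fin 6 → ℤ) (p0 f1 f2 : Pt) (c α α' γ : ℤ), c ≠ 0 →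
  (α ≠ 0 ∨ α' ≠ 0) → ∀ S : Finset (ℤ × ℤ),
  (∀ w ∈ S, α * w.1 + α' * w.2 = γ ∧ Fm (cur Q p0 f1 f2 w) = k * c ^ 3) →
  (∀ w ∈ S, ∀ w' ∈ S, cur Q p0 f1 f2 w = cur Q p0 f1 f2 w' → w = w') → S.card ≤ 6

/-- **DEG** (uses nothing; about 110 lines).  Degenerate conics: all points in two planes.
PROOF.  `p = a p₀ + u' f₁ + v' f₂` as in `StCON` and `Qf Q p = a b(u', v') + q(u', v')`.
CASE `b = 0`: `q(u', v') = 0` for all `p ∈ S`, and `q ≠ 0` (otherwise `Qf Q` vanishes on `ℤ³`, so `Q = 0`: evaluate at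
`(1,0,0), (0,1,0), (0,0,1)` and sums).  If all `p ∈ S` have `(u', v') = 0` take `N₁ = N₂ = crs p₀ f₁` (not `0`).  Otherwise
take `p₁ ∈ S` with `(u₁', v₁') ≠ 0`, `N₁ = crs p₀ p₁ ≠ 0`; if `S` is in this plane, done.  Otherwise take `p₂ ∈ S` outside,
`N₂ = crs p₀ p₂`.  A third `p₃ ∈ S` outside both planes would give three pairwise nonproportional zeros
`(uᵢ', vᵢ')` of the binary quadratic form `q`, so `q = 0`, contradiction.  (`dot (crs p₀ p₁) p = ± (u₁' v' - v₁' u')`.)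
CASE `b ≠ 0`, `R = 0`: `N₁` = the functional `p ↦ b(u'(p), v'(p))` (`u', v'` are linear functionals of `p`; value `b₁` at
`f₁`, `b₂` at `f₂`, so `N₁ ≠ 0`).  If `b(u', v') ≠ 0` and, say, `b₁ ≠ 0`: `b₁² q(u,v) = b(u,v) ℓ(u,v) + v² R` with the linear
form `ℓ(u,v) = q₀ (b(u,v) - 2 b₂ v) + q₁ b₁ v`, so `b₁² a b = -b₁² q = -b ℓ`, `b₁² a + ℓ(u', v') = 0`: `N₂` = this
functional, with value `b₁²` at `p₀`.  In the same way if `b₂ ≠ 0`. -/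
def StDEG : Prop := ∀ (Q : Fin 6 → ℤ) (p0 f1 f2 : Pt), Q ≠ 0 → det3 p0 f1 f2 = 1 → Qf Q p0 = 0 →
  ((Bf Q p0 f1 = 0 ∧ Bf Q p0 f2 = 0) ∨ RR Q p0 f1 f2 = 0) → ∀ S : Finset Pt, (∀ p ∈ S, Qf Q p = 0) →
  ∃ N1 N2 : Pt, N1 ≠ 0 ∧ N2 ≠ 0 ∧ ∀ p ∈ S, dot N1 p = 0 ∨ dot N2 p = 0

/-- **RNK** (uses nothing; about 90 lines).
PROOF.  The `ℚ`-span of the vectors `ver p`, `p ∈ T`, has dimension `≤ 5`: otherwise six of them are linearly independent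
and their determinant is not `0`.  Choose `≤ 5` of them spanning it (basis extracted from a spanning set) and write them
(padded with zero rows) in an integral `5 × 6` matrix `A` with entries of absolute value `≤ M²`.  Siegel's lemma
(`Int.Matrix.exists_ne_zero_int_vec_norm_le`) gives `0 ≠ Q ∈ ℤ⁶` with `A Q = 0` and `|Q j| ≤ (6 M²)⁵` (exponent
`5/(6-5) = 5`; `1 ≤ M`).  `Q` is orthogonal to the span. -/
def StRNK : Prop := ∀ (M : ℝ) (T : Finset Pt), 1 ≤ M →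
  (∀ p : Fin 6 → Pt, (∀ i, p i ∈ T) → Matrix.det (Matrix.of fun i j : Fin 6 => ver (p i) j) = 0) →
  (∀ p ∈ T, ∀ j, |(ver p j : ℝ)| ≤ M ^ 2) →
  ∃ Q : Fin 6 → ℤ, Q ≠ 0 ∧ (∀ j, |(Q j : ℝ)| ≤ (6 * M ^ 2) ^ 5) ∧ ∀ p ∈ T, Qf Q p = 0

/-- **MNK** (uses nothing; about 120 lines).  Geometry of numbers in the plane.
PROOF.  `D = |l₁ m₂ - l₂ m₁|`, `T = √(2 X Y / D)`.  The set `K` of the `(a, b) ∈ ℝ²` with `(a, b) = s (l₁, l₂) + r (m₁, m₂)`,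
`|s| ≤ T / X`, `|r| ≤ T / Y` is a closed centrally symmetric parallelogram of area
`D · 4 T² / (X Y) = 8 > 4`; by Minkowski (`MeasureTheory.exists_ne_zero_mem_lattice_of_measure_mul_two_pow_lt_measure`,
or any elementary argument) it contains an integral `(a, b) ≠ 0`.  For `w ∈ S`:
`|a w₁ + b w₂| = |s L₁(w) + r L₂(w)| ≤ 2 T`.  So `S` is covered by `≤ 4 T + 1` lines `a w₁ + b w₂ = γ`, each with `≤ 6` points: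
`card ≤ 6 (4 T + 1) ≤ 36 √(X Y / D) + 6`. -/
def StMNK : Prop := ∀ (l1 l2 m1 m2 X Y : ℝ), l1 * m2 - l2 * m1 ≠ 0 → 0 < X → 0 < Y → ∀ S : Finset (ℤ × ℤ),
  (∀ w ∈ S, |l1 * w.1 + l2 * w.2| ≤ X ∧ |m1 * w.1 + m2 * w.2| ≤ Y) →
  (∀ α α' γ : ℤ, (α ≠ 0 ∨ α' ≠ 0) → (S.filter fun w => α * w.1 + α' * w.2 = γ).card ≤ 6) →
  (S.card : ℝ) ≤ 36 * √(X * Y / |l1 * m2 - l2 * m1|) + 6

/-! ## Part 2: local geometry near the Fermat cubic -/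

/-- **SGN** (uses nothing; about 60 lines).
PROOF.  `z ≠ 0` as `|z| > B/2 > 0`.  Dividing `x³ + y³ + z³ = k` by `z³` gives the equation; `|k/z³| ≤ 8|k|/B³`.  From
`Par`: `16 |k| ≤ B λ ≤ B β⁹/90`, so `8 |k|/B³ < β³`.  `|ξ|, |η| ∈ [β, 1]` (`x_ge`, `z_le`, `x_le`).  If `η > 0` then `η ≥ β`,
`ξ³ = -1 + k/z³ - η³ < -1`, contradiction to `|ξ| ≤ 1`.  So `η ≤ -β`, and in the same way `ξ ≤ -β`. -/
def StSGN : Prop := ∀ (k : ℤ) (B β lam : ℝ), Par k B β lam → ∀ p : Pt, Gen k B β p →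
  (-1 ≤ xi p ∧ xi p ≤ -β ∧ -1 ≤ et p ∧ et p ≤ -β) ∧
  xi p ^ 3 + et p ^ 3 + 1 = (k : ℝ) / (p.2.2 : ℝ) ^ 3 ∧ |(k : ℝ) / (p.2.2 : ℝ) ^ 3| ≤ 8 * |(k : ℝ)| / B ^ 3

/-- **LOC** (uses nothing; about 60 lines; pure inequalities).
PROOF.  (a) `u (y² + y(y+u) + (y+u)²) = e - t (x² + x(x+t) + (x+t)²)`.  The first bracket is `≥ 3 β²` (the numbers
`y, y+u` are `≤ -β`), the second is in `[0, 3]`.  So `3 β² |u| ≤ |e| + 3 |t|`.  (b) With `v = u + (x²/y²) t`: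
`3 y² v = e - 3 x t² - t³ - 3 y u² - u³`; `|t|, |u| ≤ 1` (all four numbers are in `[-1, 0]`), so
`3 β² |v| ≤ |e| + 4 t² + 4 u²`, and `u² ≤ (|t| + |e|)²/β⁴ ≤ 2 (t² + |e|)/β⁴`; altogether `≤ 12 (t² + |e|)/β⁴`. -/
def StLOC : Prop := ∀ β x y t u e : ℝ, 0 < β → β ≤ 1 → -1 ≤ x → x ≤ -β → -1 ≤ y → y ≤ -β →
  -1 ≤ x + t → x + t ≤ -β → -1 ≤ y + u → y + u ≤ -β → |e| ≤ 1 →
  3 * x ^ 2 * t + 3 * x * t ^ 2 + t ^ 3 + 3 * y ^ 2 * u + 3 * y * u ^ 2 + u ^ 3 = e →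
  |u| ≤ (|t| + |e|) / β ^ 2 ∧ |u + x ^ 2 / y ^ 2 * t| ≤ 4 * (t ^ 2 + |e|) / β ^ 6

/-- **LOD** (uses `StLOC`; about 150 lines; pure inequalities).  Third order expansion.
PROOF.  `a₁ = -x²/y²`, `a₂ = -(x + y a₁²)/y²`, `a₃ = -(1 + a₁³ + 6 y a₁ a₂)/(3 y²)`, `c = a₃/a₂`; `v = u - a₁ t`,
`ρ = v - a₂ t²`.  `|a₁| ≤ β⁻²`, `|u| ≤ 2 λ β⁻²`, `|v| ≤ 4 (λ² + λ³) β⁻⁶ ≤ 8 λ² β⁻⁶` (`StLOC`, `|e| ≤ δ ≤ λ³`), so the first two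
claims.  `|a₂| ≤ 2 β⁻⁶`, and `a₂ y⁵ = -x (x³ + y³) = x (1 - e₀)`, so `|a₂| ≥ β/2`.
`3 y² ρ = e - t³ - u³ - 3 y v (u + a₁ t)`, so `3 β² |ρ| ≤ λ³ + λ³ + 8 λ³ β⁻⁶ + 72 λ³ β⁻⁸`, `|ρ| ≤ 28 λ³ β⁻¹⁰`.
`|a₃| ≤ 5 β⁻¹⁰`.  `3 y² (ρ - a₃ t³) = e - v (u² + u a₁ t + a₁² t²) - 3 y (v² + 2 a₁ t ρ)`, so
`3 β² |ρ - a₃ t³| ≤ δ + 56 λ⁴ β⁻¹⁰ + 3 (64 + 56) λ⁴ β⁻¹² ≤ δ + 416 λ⁴ β⁻¹²`, `|ρ - a₃ t³| ≤ δ β⁻² + 139 λ⁴ β⁻¹⁴`.
`ρ - c t v = (ρ - a₃ t³) - c t ρ` (as `t v = a₂ t³ + t ρ`), `|c| ≤ 10 β⁻¹¹`, `|c t ρ| ≤ 280 λ⁴ β⁻²¹`.  Sum: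
`(δ + 419 λ⁴) β⁻²¹`. -/
def StLOD : Prop := ∀ (β lam δ x y e0 : ℝ), 0 < β → β ≤ 1 → 0 < lam → lam ≤ 1 → 0 ≤ δ → δ ≤ lam ^ 3 →
  -1 ≤ x → x ≤ -β → -1 ≤ y → y ≤ -β → x ^ 3 + y ^ 3 = -1 + e0 → |e0| ≤ 1 / 2 →
  ∃ a1 a2 c : ℝ, ∀ t u e : ℝ, |t| ≤ lam → |e| ≤ δ → -1 ≤ x + t → x + t ≤ -β → -1 ≤ y + u → y + u ≤ -β →
    3 * x ^ 2 * t + 3 * x * t ^ 2 + t ^ 3 + 3 * y ^ 2 * u + 3 * y * u ^ 2 + u ^ 3 = e →
    |t * (u - a1 * t)| ≤ 8 * lam ^ 3 / β ^ 6 ∧ (u - a1 * t) ^ 2 ≤ 64 * lam ^ 4 / β ^ 12 ∧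
    |(u - a1 * t) - a2 * t ^ 2 - c * (t * (u - a1 * t))| ≤ (δ + 419 * lam ^ 4) / β ^ 21

/-- **DT6** (uses nothing; about 60 lines; linear algebra).  Column operations and the trivial bound for a determinant.
PROOF.  Let `N` be the matrix with rows `(1, tᵢ, tᵢ², tᵢvᵢ, vᵢ², rᵢ)`, `vᵢ = uᵢ - a₁ tᵢ`, `rᵢ = vᵢ - a₂ tᵢ² - c tᵢ vᵢ`.  With
`X = x + t`, `Y = y + u`, `u = a₁ t + a₂ t² + c t v + r`, `t u = a₁ t² + t v`, `u² = a₁² t² + 2 a₁ t v + v²` the row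
`(X², XY, Y², X, Y, 1)` is `N_i · T` with a constant matrix `T`, `det T = ± 1` (columns `X², XY, Y², X, Y, 1`, rows
`1, t, t², tv, v², r`: `X²: (x², 2x, 1, 0, 0, 0)`, `XY: (xy, y + x a₁, x a₂ + a₁, x c + 1, 0, x)`,
`Y²: (y², 2 y a₁, 2 y a₂ + a₁², 2 y c + 2 a₁, 1, 2 y)`, `X: (x, 1, 0, 0, 0, 0)`, `Y: (y, a₁, a₂, c, 0, 1)`, `1: (1, 0, ...)`).
`|det N| ≤ 6! Π (bounds of the columns)`: divide column `j` by its bound `c_j > 0` and use `Matrix.det_le` (or Leibniz). -/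
def StDT6 : Prop := ∀ (x y a1 a2 c b1 b2 b3 b4 b5 : ℝ) (t u : Fin 6 → ℝ), 0 < b1 → 0 < b2 → 0 < b3 → 0 < b4 → 0 < b5 →
  (∀ i, |t i| ≤ b1) → (∀ i, t i ^ 2 ≤ b2) → (∀ i, |t i * (u i - a1 * t i)| ≤ b3) →
  (∀ i, (u i - a1 * t i) ^ 2 ≤ b4) →
  (∀ i, |(u i - a1 * t i) - a2 * t i ^ 2 - c * (t i * (u i - a1 * t i))| ≤ b5) →
  |Matrix.det (Matrix.of fun i j : Fin 6 => (![(x + t i) ^ 2, (x + t i) * (y + u i), (y + u i) ^ 2, x + t i, y + u i, 1]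
    : Fin 6 → ℝ) j)| ≤ 720 * (b1 * b2 * b3 * b4 * b5)

/-- **DET** (uses `StSGN`, `StLOD`, `StDT6`; about 100 lines).  Six generic solutions of a patch.
PROOF.  `x = ξ(p₀)`, `y = η(p₀)`, `e₀ = k/z₀³` (`|e₀| ≤ 8|k|/B³ ≤ 1/2` by `Par`), `tᵢ = ξ(pᵢ) - x`, `uᵢ = η(pᵢ) - y`,
`eᵢ = k/zᵢ³ - k/z₀³`, `|eᵢ| ≤ δ = 16|k|/B³ ≤ λ³` (`16|k| ≤ Bλ ≤ (Bλ)³` since `Bλ ≥ 16`).  Subtracting the equations of
`StSGN` gives `3x²t + 3xt² + t³ + 3y²u + 3yu² + u³ = e`.  `StLOD` and `StDT6` with `b₁ = λ`, `b₂ = λ²`, `b₃ = 8λ³/β⁶`,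
`b₄ = 64λ⁴/β¹²`, `b₅ = (δ + 419 λ⁴)/β²¹ ≤ 435 |k|/(B³ β²¹)` (`λ⁴ ≤ B⁻³`).  The row `ver pᵢ` is
`zᵢ² (X², XY, Y², X, Y, 1)`, so `|det| ≤ B¹² · 720 · 222720 |k| λ¹⁰ B⁻³ β⁻³⁹ = 160358400 |k| B⁹ λ¹⁰ β⁻³⁹ < 1` (`Par.dt`), and
the integer `det` is `0`. -/
def StDET : Prop := ∀ (k : ℤ) (B β lam : ℝ), Par k B β lam → ∀ p0 : Pt, Gen k B β p0 → ∀ p : Fin 6 → Pt,
  (∀ i, Gen k B β (p i)) → (∀ i, |xi (p i) - xi p0| ≤ lam) →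
  Matrix.det (Matrix.of fun i j : Fin 6 => ver (p i) j) = 0

/-- **PLG** (uses `StSGN`, `StLOC`; about 120 lines).  Three solutions in a plane through `0`: two of them are close.
PROOF.  If `N.2.1 = 0`, then `N.1 ξ + N.2.2 = 0` for the three points, so `N.1 ≠ 0` (as `N ≠ 0`) and the `ξ` are equal.
Otherwise `η(pᵢ) = y + σ tᵢ`, `σ = -N.1/N.2.1`, `tᵢ = ξ(pᵢ) - x`, `x = ξ(p₀)`, `y = η(p₀)`.  Suppose all three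
squares are `> G = 48|k|/(βB³)`; then `t₁, t₂, t₁ - t₂ ≠ 0`.  `φ(t) = (x+t)³ + (y+σt)³ + 1` satisfies `φ(0) = k/z₀³`,
`φ(tᵢ) = k/zᵢ³`, all of absolute value `≤ 8|k|/B³`, and
`φ(0)/(t₁t₂) + φ(t₁)/(t₁(t₁-t₂)) + φ(t₂)/(t₂(t₂-t₁)) = φ₂ + φ₃ (t₁+t₂)`, `φ₂ = 3x + 3yσ²`, `φ₃ = 1 + σ³`.
The left side is `< 8|k|B⁻³ · 3/G = β/2` in absolute value.  RIGHT SIDE: `φ₂ ≤ 3x ≤ -3β` (`x, y < 0`!).  `|t₁| ≥ 1/B²`
(`z₀ z₁ t₁` is a nonzero integer), `e₁ = k/z₁³ - k/z₀³`, `|e₁| ≤ 16|k|/B³`, so `StLOC` gives (`u₁ = σ t₁`)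
`|σ| ≤ (1 + |e₁|/|t₁|)/β² ≤ (1 + 16|k|/B)/β² ≤ (1 + λ)/β² ≤ 2/β²`, `|φ₃(t₁+t₂)| ≤ (1 + 8β⁻⁶) 2λ ≤ 18λβ⁻⁶ ≤ β` (`Par.lb`).
So the right side is `≤ -2β`, contradiction. -/
def StPLG : Prop := ∀ (k : ℤ) (B β lam : ℝ), Par k B β lam → ∀ N : Pt, N ≠ 0 → ∀ p0 p1 p2 : Pt,
  Gen k B β p0 → Gen k B β p1 → Gen k B β p2 → dot N p0 = 0 → dot N p1 = 0 → dot N p2 = 0 →
  |xi p1 - xi p0| ≤ lam → |xi p2 - xi p0| ≤ lam → |xi p2 - xi p1| ≤ lam →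
  (xi p1 - xi p0) ^ 2 ≤ 48 * |(k : ℝ)| / (β * B ^ 3) ∨ (xi p2 - xi p0) ^ 2 ≤ 48 * |(k : ℝ)| / (β * B ^ 3) ∨
  (xi p2 - xi p1) ^ 2 ≤ 48 * |(k : ℝ)| / (β * B ^ 3)

/-- **PLC** (uses `StSGN`, `StLOC`, `StLN3`; about 110 lines).  A cluster in a plane through `0`.
PROOF.  `p = (x, y, z)`, `M = (x², y², z²)`; for `q = (x', y', z') ∈ S` the integer `A = dot M q` is
`z² z' (ξ²ξ' + η²η' + 1) = z² z' (k/z³ + η² v) = k z'/z + z² z' η² v`, `v = u + (ξ²/η²) t`, `t = ξ' - ξ`, `u = η' - η`.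
`|z'/z| ≤ 2`, and by `StLOC` `|v| ≤ 4 (t² + |e|)/β⁶ ≤ 4 (48|k|/(βB³) + 16|k|/B³)/β⁶ ≤ 256|k|/(β⁷B³)`.  So
`|A| ≤ 2|k| + 256|k|/β⁷ ≤ L = 258|k|/β⁷`.  `crs N M ≠ 0` (otherwise `M` is a rational multiple of `N ≠ 0`, and
`dot M p = k ≠ 0 = dot N p`).  By `StLN3` every value of `A` is taken `≤ 3` times; there are `≤ 2L + 1` values:
`card ≤ 3 (2L + 1) ≤ 1551|k|/β⁷`. -/
def StPLC : Prop := ∀ (k : ℤ) (B β lam : ℝ), Par k B β lam → NC k → ∀ N : Pt, N ≠ 0 → ∀ p : Pt,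
  Gen k B β p → dot N p = 0 → ∀ S : Finset Pt, (∀ q ∈ S, Gen k B β q ∧ dot N q = 0 ∧
    (xi q - xi p) ^ 2 ≤ 48 * |(k : ℝ)| / (β * B ^ 3)) → (S.card : ℝ) ≤ 1551 * |(k : ℝ)| / β ^ 7

/-- **PLN** (uses `StPLG`, `StPLC`; about 50 lines).  PROOF.  If `S` is empty trivial.  Let `p₁, p₂ ∈ S` have minimal and
maximal `ξ`.  For `q ∈ S` apply `StPLG` to `p₁, q, p₂`: `q` is close to `p₁`, or close to `p₂`, or `p₁, p₂` are close, and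
then `q` is close to `p₁` as `ξ(p₁) ≤ ξ(q) ≤ ξ(p₂)`.  So `S` is the union of two clusters. -/
def StPLN : Prop := ∀ (k : ℤ) (B β lam : ℝ), Par k B β lam → NC k → ∀ N : Pt, N ≠ 0 → ∀ S : Finset Pt,
  (∀ p ∈ S, Gen k B β p ∧ dot N p = 0) → (∀ p ∈ S, ∀ q ∈ S, |xi p - xi q| ≤ lam) →
  (S.card : ℝ) ≤ 3102 * |(k : ℝ)| / β ^ 7

/-! ## Part 3: counting -/

/-- **MAI** (uses `StSGN`, `StLOC`, `StLN6`, `StMNK`; about 200 lines).  The main count on the conic, for a fixed `c`.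
PROOF.  `p₀ = (x₀, y₀, z₀)`.  Choose `a, g, w = (u, v)` for every `p ∈ S`.  The pair `w` determines `p`
(`c p = cur w`, `c ≠ 0`), and `Fm (cur w) = c³ Fm p = k c³`, so by `StLN6` every line contains `≤ 6` of the `w`.  `W = 8 (Bλ)³/β⁸`, `g₀ = W^(1/4)`.
(i) Points with `g ≤ g₀`: `w` lies on the line `lb w = g c` (`lb` is not `0`), at most `g₀` lines: `≤ 6 g₀` points.
(ii) Points with `g > g₀`: the real linear forms `L₁(x,y,z) = z₀ x - x₀ z`, `L₂(x,y,z) = x₀² x + y₀² y + z₀² z - (k/z₀) z`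
vanish at `p₀`, so `Lᵢ(p) = g Lᵢ(lf w)`.  With `t = ξ(p) - ξ(p₀)`, `|t| ≤ λ`: `|L₁(p)| = |z₀ z t| ≤ X = B² λ`;
`L₂(p) = z₀² z (ξ₀² t + η₀² u) = z₀² z η₀² v`, `|v| ≤ 4 (λ² + 16|k|/B³)/β⁶ ≤ 8λ²/β⁶` (`StLOC`; `16|k| ≤ Bλ ≤ B³λ²`), so
`|L₂(p)| ≤ Y = 8 B³ λ²/β⁶`.  So `|L₁(lf w)| ≤ X/g₀`, `|L₂(lf w)| ≤ Y/g₀`.  `L₁(f₁) L₂(f₂) - L₁(f₂) L₂(f₁) = y₀²`
(up to sign; from `det3 p₀ f₁ f₂ = 1`: multiply by `z₀` and use `x₀³ + y₀³ + z₀³ = k`), and `y₀² ≥ β² B²`.  `StMNK`: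
`card ≤ 36 √(X Y/(y₀² g₀²)) + 6 ≤ 36 √W/g₀ + 6 = 36 W^(1/4) + 6`.
Sum `≤ 42 W^(1/4) + 6`, `W^(1/4) = 8^(1/4) (Bλ)^(3/4)/β² ≤ 1.7 (Bλ)^(3/4)/β²`, and `(Bλ)^(3/4)/β² ≥ 1`:
`card ≤ 78 (Bλ)^(3/4)/β²`. -/
def StMAI : Prop := ∀ (k : ℤ) (B β lam : ℝ), Par k B β lam → NC k → ∀ (Q : Fin 6 → ℤ) (p0 f1 f2 : Pt),
  Gen k B β p0 → det3 p0 f1 f2 = 1 → (Bf Q p0 f1 ≠ 0 ∨ Bf Q p0 f2 ≠ 0) → ∀ c : ℤ, c ≠ 0 → ∀ S : Finset Pt,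
  (∀ p ∈ S, Gen k B β p ∧ |xi p - xi p0| ≤ lam ∧ ∃ a g u v : ℤ, 1 ≤ g ∧ IsCoprime u v ∧
    lb Q p0 f1 f2 (u, v) = g * c ∧ p = a • p0 + g • lf f1 f2 (u, v) ∧ c • p = cur Q p0 f1 f2 (u, v)) →
  (S.card : ℝ) ≤ 78 * (B * lam) ^ (3 / 4 : ℝ) / β ^ 2

/-- **PAT** (uses `StDET`, `StRNK`, `StBAS`, `StCON`, `StDIS`, `StDEG`, `StPLN`, `StMAI`; about 150 lines).  The bound for a
patch.
PROOF.  `S` empty: trivial (`n = 1`).  Take `p₀ ∈ S`.  By `StDET` all `6 × 6` determinants vanish, `StRNK` (`M = B`;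
`|ver p j| ≤ B²`) gives `Q ≠ 0` with `|Q j| ≤ (6B²)⁵` vanishing on `S`; `StBAS` gives `f₁, f₂`.  If `b = 0` or `R = 0`:
`StDEG` and `StPLN` (twice): `card ≤ 6204|k|/β⁷`, take `n = 1`.  Otherwise `n = |R|`, `1 ≤ n ≤ 8 ((6B²)⁵)³` by `StDIS`.  The
points with `b(u', v') = 0` lie in the plane of the functional `p ↦ b(det3 p₀ p f₂, det3 p₀ f₁ p)` (not `0`: its values
at `f₁`, `f₂` are `b₁`, `b₂`): `≤ 3102|k|/β⁷` by `StPLN`.  The others: `StCON` gives `c ∣ R`, `c ≠ 0`; there are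
`2 τ(n)` possible values of `c`, and `StMAI` bounds each class. -/
def StPAT : Prop := ∀ (k : ℤ) (B β lam : ℝ), Par k B β lam → NC k → ∀ S : Finset Pt, (∀ p ∈ S, Gen k B β p) →
  (∀ p ∈ S, ∀ q ∈ S, |xi p - xi q| ≤ lam) →
  ∃ n : ℕ, 1 ≤ n ∧ (n : ℝ) ≤ 8 * ((6 * B ^ 2) ^ 5) ^ 3 ∧
    (S.card : ℝ) ≤ 6204 * |(k : ℝ)| / β ^ 7 + 156 * n.divisors.card * ((B * lam) ^ (3 / 4 : ℝ) / β ^ 2)

/-- **GEN** (uses `StPAT`, `StSGN`, `StDIV`; about 170 lines).  All generic solutions.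
PROOF.  `k ≠ 0` as `0` is a cube.  `β = B^(-1/200)`, `λ = B^(-23/25)`.  For `B ≥ B₀(k)` `Par k B β λ` holds: `Bλ = B^(2/25)`,
`β⁹ = B^(-9/200)`, `λ⁴ B³ = B^(-17/25)`, `B⁹ λ¹⁰ = B^(-1/5)` and `β³⁹ = B^(-39/200)` (use
`tendsto_rpow_neg_atTop`/`eventually` or explicit `B₀`).  Partition by `j = ⌊(ξ(p) + 1)/λ⌋ ∈ {0, ..., ⌊1/λ⌋}`
(`-1 ≤ ξ ≤ 0` by `StSGN`): at most `1/λ + 1 ≤ 2 B^(23/25)` classes, in each `|ξ - ξ'| ≤ λ`.  `StPAT` and `StDIV` with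
`ε = 1/1200000` (`n ≤ 8 · 6¹⁵ B³⁰`, `n^ε ≤ C B^(1/40000)`): each class has
`≤ 6204|k| B^(7/200) + C B^(1/40000) B^(3/50) B^(1/100)` points.  Sum: `C (B^(191/200) + B^(99/100 + 1/40000))`, and
`th = 99/100 + 1/40000`. -/
def StGEN : Prop := ∀ k : ℤ, NC k → ∃ C B0 : ℝ, 0 < C ∧ 1 ≤ B0 ∧ ∀ B : ℝ, B0 ≤ B → ∀ S : Finset Pt,
  (∀ p ∈ S, Gen k B (B ^ (-(1 / 200) : ℝ)) p) → (S.card : ℝ) ≤ C * B ^ th

/-- **DYP** (uses `StGEN`, `StSK`; about 120 lines).  Primitive solutions in a dyadic range, largest coordinate third.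
PROOF.  `β = B^(-1/200)`.  For `B ≤ B₁(k)` the trivial bound `(2B₁+1)³`.  For `B > B₁`: `T` is the union of the generic
ones (`StGEN`), those with `|y| < βB` and those with `|x| < βB`.  Second set: the triples `(x, z, y)` satisfy the
hypothesis of `StSK` with `Z = ⌈βB⌉`, `M = ⌊B/2⌋` (`2 ≤ Z ≤ M` for `B > B₁`):
`≤ C Z²/M log Z ≤ C (2βB)²/(B/4) log B = 16 C B^(99/100) log B ≤ C' B^th`.  Third set: the triples `(y, z, x)`. -/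
def StDYP : Prop := ∀ k : ℤ, NC k → ∃ C : ℝ, 0 < C ∧ ∀ B : ℝ, 1 ≤ B → ∀ T : Finset Pt,
  (∀ p ∈ T, Fm p = k ∧ Prm p ∧ |(p.1 : ℝ)| ≤ |(p.2.2 : ℝ)| ∧ |(p.2.1 : ℝ)| ≤ |(p.2.2 : ℝ)| ∧
    B / 2 < |(p.2.2 : ℝ)| ∧ |(p.2.2 : ℝ)| ≤ B) → (T.card : ℝ) ≤ C * B ^ th

/-- **DYA** (uses `StDYP`; about 110 lines).  All solutions in a dyadic range (any position of the maximum).
PROOF.  For `p ∈ T` let `d = gcd(x, y, z) ≥ 1`; `d³ ∣ k`, `k ≠ 0`, so `d ≤ |k|`; `p = d p'`, `p'` primitive, `Fm p' = k/d³`, not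
a cube.  There are three positions of a coordinate of largest absolute value; permuting we may assume it is the third.
For fixed `d ∣ k` (finitely many) with `d³ ∣ k` and fixed position the points `p'` satisfy the hypothesis of `StDYP` for
`k/d³` and `B/d` (`B/d ≥ |z'| ≥ 1`).  Sum over `d` and the positions: `C = 3 Σ_d C_{k/d³}`. -/
def StDYA : Prop := ∀ k : ℤ, NC k → ∃ C : ℝ, 0 < C ∧ ∀ B : ℝ, 1 ≤ B → ∀ T : Finset Pt,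
  (∀ p ∈ T, Fm p = k ∧ B / 2 < max |(p.1 : ℝ)| (max |(p.2.1 : ℝ)| |(p.2.2 : ℝ)|) ∧
    max |(p.1 : ℝ)| (max |(p.2.1 : ℝ)| |(p.2.2 : ℝ)|) ≤ B) → (T.card : ℝ) ≤ C * B ^ th

/-- **HGT** (uses `StDYA`; about 60 lines).  Solutions of height `≤ B`.
PROOF.  Induction on `n`, for `1 ≤ B ≤ 2^n`: `H(B) ≤ C₁ B^th + H(B/2)`, where `C₁` is the constant of `StDYA` and
`H(B/2) = 0` if `B/2 < 1` (`p = 0` is no solution as `k ≠ 0`).  `C = 4 C₁` works: `C₁ + C 2^(-th) ≤ C` as `2^(-th) ≤ 3/4`. -/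
def StHGT : Prop := ∀ k : ℤ, NC k → ∃ C : ℝ, 0 < C ∧ ∀ B : ℝ, 1 ≤ B → ∀ T : Finset Pt,
  (∀ p ∈ T, Fm p = k ∧ |(p.1 : ℝ)| ≤ B ∧ |(p.2.1 : ℝ)| ≤ B ∧ |(p.2.2 : ℝ)| ≤ B) → (T.card : ℝ) ≤ C * B ^ th

/-- **FIN** (uses `StHGT`, `StSK`; about 100 lines).  The theorem.
PROOF.  `Z ≥ 2` (for `1 ≤ Z < 2` use the bound for `Z = 2`).  `Z₁ = ⌈Z⌉`, `M = ⌈Z^(200/199)⌉ ≥ Z₁`.  Let `T` be a finite set
of solutions with `|z| ≤ Z`.  Those with `max(|x|, |y|) ≥ M`: `StSK`: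
`≤ C Z₁²/M log Z₁ ≤ C (2Z)²/Z^(200/199) log(2Z) ≤ C' Z^(199/200)` (`2 - 200/199 = 198/199 < 199/200`).  The others have
height `≤ M ≤ 2 Z^(200/199)`: `StHGT`: `≤ C (2 Z^(200/199))^th ≤ 2 C Z^(199/200)` (`(200/199) th = 199/200`).  So every
finite subset of the solution set has bounded cardinality, hence the set is finite and the bound holds for it. -/
def StFIN : Prop := ∀ k : ℤ, (∀ m : ℤ, m ^ 3 ≠ k) → ∃ C : ℝ, ∀ Z : ℝ, 1 ≤ Z →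
  {p : ℤ × ℤ × ℤ | p.1 ^ 3 + p.2.1 ^ 3 + p.2.2 ^ 3 = k ∧ |(p.2.2 : ℝ)| ≤ Z}.Finite ∧
  (({p : ℤ × ℤ × ℤ | p.1 ^ 3 + p.2.1 ^ 3 + p.2.2 ^ 3 = k ∧ |(p.2.2 : ℝ)| ≤ Z}.ncard : ℕ) : ℝ) ≤
    C * Z ^ (199 / 200 : ℝ)

end Pool.Agent.Helper92.PW
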